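import Mathlib
import Pool.Agent.Lib.MP_08f711_an.Domain

/-!
A smoothly bounded pseudoconvex domain of finite type in complex two-space which is not
locally convexifiable at one of its boundary points.

The witness is the domain where
`Re w + |w|^2 + |z|^6 - (6/5) |z|^2 Re (z^4) + |z|^8` is negative, at the origin.
-/

open Set Filter Topology Asymptotics
open scoped ContDiff

namespace Pool.Agent.Lib.MP_08f711_an.Variants.NotConvexifiable

/-- The Levi form (complex Hessian) of a real function `ρ` at the point `q` in the direction `v`: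
one quarter of `D²ρ(q)(v,v) + D²ρ(q)(iv,iv)`. -/
noncomputable def leviForm (ρ : ℂ × ℂ → ℝ) (q v : ℂ × ℂ) : ℝ :=
  (fderiv ℝ (fderiv ℝ ρ) q v v + fderiv ℝ (fderiv ℝ ρ) q (Complex.I • v) (Complex.I • v)) / 4

/-- The hypersurface where `ρ` vanishes has finite type at `q` in the sense of D'Angelo: for all
non-constant holomorphic curve germs `γ` with `γ 0 = q`, the vanishing order of `ρ ∘ γ` at `0` is
at most a fixed constant times the vanishing order of `γ - q` at `0`. -/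
def FiniteTypeAt (ρ : ℂ × ℂ → ℝ) (q : ℂ × ℂ) : Prop :=
  ∃ C : ℕ, ∀ γ : ℂ → ℂ × ℂ, AnalyticAt ℂ γ 0 → γ 0 = q → ∀ ν N : ℕ,
    analyticOrderAt (fun t => γ t - q) 0 = (ν : ℕ∞) →
    (fun t => ρ (γ t)) =O[𝓝 0] (fun t : ℂ => ‖t‖ ^ N) → N ≤ C * ν

theorem result :
    ∃ (Ω : Set (ℂ × ℂ)) (ρ : ℂ × ℂ → ℝ) (p : ℂ × ℂ),
      IsOpen Ω ∧ IsConnected Ω ∧ Bornology.IsBounded Ω ∧
      ContDiff ℝ ∞ ρ ∧ Ω = {x | ρ x < 0} ∧ (∀ q ∈ frontier Ω, fderiv ℝ ρ q ≠ 0) ∧
      (∀ q v, 0 ≤ leviForm ρ q v) ∧ (∀ q ∈ frontier Ω, FiniteTypeAt ρ q) ∧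
      p ∈ frontier Ω ∧
      ∀ U : Set (ℂ × ℂ), IsOpen U → p ∈ U → ∀ Φ : ℂ × ℂ → ℂ × ℂ,
        DifferentiableOn ℂ Φ (U ∩ Ω) → InjOn Φ (U ∩ Ω) → ¬ Convex ℝ (Φ '' (U ∩ Ω)) := by
  open Pool.Agent.Lib.MP_08f711_an in
  refine ⟨{x | rho x < 0}, rho, 0, isOpen_lt continuous_rho continuous_const, isConnected_domain,
    isBounded_domain, contDiff_rho, rfl,
    fun q hq => fderiv_rho_ne_zero (rho_eq_zero_of_frontier hq), fun q v => ?_,
    fun q hq => ⟨6, fun γ hγ h0 ν N hν hN =>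
      order_contact_le (rho_eq_zero_of_frontier hq) hγ h0 hν hN⟩,
    zero_mem_frontier, fun U hU h0 Φ hΦ hinj => not_convex_image hU h0 hΦ hinj⟩
  have := Pool.Agent.Lib.MP_08f711_an.levi_rho_nonneg q v
  simp only [iteratedFDeriv_two_apply, Matrix.cons_val_zero, Matrix.cons_val_one] at this
  unfold leviForm
  positivity

end Pool.Agent.Lib.MP_08f711_an.Variants.NotConvexifiable
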